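import Pool.Agent.H7.GT.Stmts

/-!
Board gt7 (MP_fd41b2_co), row CZA, helper46: two parts with few neighbours of `z`.
-/

set_option autoImplicit false

open Finset

namespace Pool.GT7

open Pool.Agent.H23.KT Pool.Agent.H46.KW Pool.KQ

theorem CZA_arith (b c T D κ ccb ccs S K N A M : ℝ) (hb : 3 ≤ b) (hc : 0 ≤ c)
    (hccb : 0 ≤ ccb) (hM : 0 ≤ M)
    (h1 : 8 * A * κ ≤ ccs) (h2 : ccb ≤ 2 * (A * κ)) (h3 : ccb + 1 / 2 * ccs ≤ T)
    (h4 : S ≤ c * ((1 - 1 / b) * T + 1 / b * ccb)) (h5 : (1 - 1 / (32 * b)) * (N * K) ≤ S)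
    (hD : D = N * M) :
    K * D ≤ (1 - 1 / (2 * b)) * (c * M) * T := by
  have hb0 : 0 < b := by linarith
  have h6 : 3 * ccb ≤ T := by linarith
  have hT : 0 ≤ T := by linarith
  have hib : 0 < 1 / b := by positivity
  have hib1 : 1 / b ≤ 1 / 3 := one_div_le_one_div_of_le (by norm_num) hb
  have e1 : 1 / (32 * b) = 1 / 32 * (1 / b) := by field_simp
  have e2 : 1 / (2 * b) = 1 / 2 * (1 / b) := by field_simp
  rw [e1] at h5
  rw [e2]
  set y := 1 / b with hy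
  have h7 : (1 - y) * T + y * ccb ≤ (1 - 2 / 3 * y) * T := by nlinarith
  have h8 : S ≤ c * ((1 - 2 / 3 * y) * T) := le_trans h4 (mul_le_mul_of_nonneg_left h7 hc)
  have h9 : (1 - 2 / 3 * y) ≤ (1 - 1 / 32 * y) * (1 - 1 / 2 * y) := by nlinarith
  have h10 : (1 - 1 / 32 * y) * (N * K) ≤ (1 - 1 / 32 * y) * (c * ((1 - 1 / 2 * y) * T)) := by
    calc (1 - 1 / 32 * y) * (N * K) ≤ S := h5
      _ ≤ c * ((1 - 2 / 3 * y) * T) := h8
      _ ≤ c * (((1 - 1 / 32 * y) * (1 - 1 / 2 * y)) * T) :=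
        mul_le_mul_of_nonneg_left (mul_le_mul_of_nonneg_right h9 hT) hc
      _ = (1 - 1 / 32 * y) * (c * ((1 - 1 / 2 * y) * T)) := by ring
  have h11 : N * K ≤ c * ((1 - 1 / 2 * y) * T) := le_of_mul_le_mul_left h10 (by linarith)
  calc K * D = (N * K) * M := by rw [hD]; ring
    _ ≤ (c * ((1 - 1 / 2 * y) * T)) * M := mul_le_mul_of_nonneg_right h11 hM
    _ = (1 - 1 / 2 * y) * (c * M) * T := by ring

theorem CZA_thm (hCSA : CSAStmt) (hCCK : CCKStmt) (hSUM : SUMStmt) (hDBL : DBLStmt) : CZAStmt := by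
  intro p w r hP C
  obtain ⟨a₀, h0⟩ := hCSA p C
  refine ⟨a₀, ?_⟩
  intro a ha V _ G e W P U hS he0 he1 hCB z hz k0 l1 hkl hk hl
  have hp : (0 : ℝ) ≤ (p : ℝ) := Nat.cast_nonneg _
  have hE0 : 0 < e1 p := by unfold e1; positivity
  have hE1 : e1 p ≤ 1 := by
    unfold e1
    rw [div_le_one (by positivity)]
    have : (1 : ℝ) ≤ ((p : ℝ) + 3) ^ 3 := one_le_pow₀ (by linarith)
    linarith
  have hA := h0 a ha G e W P U hS (by linarith) hCB z hz k0 l1 hkl hk hl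
  obtain ⟨-, hC2, -, hC4⟩ := hCCK G p w r a e C W P U hP hS he0 he1 hCB z hz
  have hM := hSUM G p w r a e C W P U hP hS he0 he1 hCB z hz
  have hD := (hDBL G p a e P he0 he1 hS.par hS.lo hS.mis z (w + 1) (by have := hP.wp; omega)).2
  have ha0 : (0 : ℝ) ≤ (a : ℝ) := Nat.cast_nonneg _
  refine CZA_arith ((p : ℝ) + 3) ((p + 2).choose (w + 1) : ℝ) (TZ G p r (un P) z)
    ((a : ℝ) ^ (p + 3)) (kc G (nb G (un P) z) (p + 2) : ℝ) (cc G p (un P) (p + 2) z : ℝ)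
    (cc G p (un P) (p + 1) z : ℝ)
    (∑ L ∈ clq G (un P) (p + 3), ((nb G L z).card.choose (w + 1) : ℝ))
    (kc G (nb G (un P) z) (w + 1) : ℝ) ((a : ℝ) ^ (p + 3 - (w + 1))) (a : ℝ)
    ((a : ℝ) ^ (w + 1)) (by linarith) (Nat.cast_nonneg _) (Nat.cast_nonneg _)
    (pow_nonneg ha0 _) hA ?_ hC4 hM hD ?_
  · refine le_trans hC2 ?_
    have hk0 : (0 : ℝ) ≤ (a : ℝ) * (kc G (nb G (un P) z) (p + 2) : ℝ) :=
      mul_nonneg ha0 (Nat.cast_nonneg _)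
    calc (1 + e) * (a : ℝ) * (kc G (nb G (un P) z) (p + 2) : ℝ)
        = (1 + e) * ((a : ℝ) * (kc G (nb G (un P) z) (p + 2) : ℝ)) := by ring
      _ ≤ 2 * ((a : ℝ) * (kc G (nb G (un P) z) (p + 2) : ℝ)) :=
        mul_le_mul_of_nonneg_right (by linarith) hk0
  · rw [← pow_add]
    congr 1
    have := hP.wp
    omega

end Pool.GT7
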